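import Pool.Agent.Work.MP_a21be6_nt.Main

/-!
# The spectrum of the prime-sum matrix alternates weakly for every `n`, and strictly if its
characteristic polynomial is irreducible

The definitions used in the statement (`PrimeSum.M`, `chi`, `IsSpectrum`, `Alternating`) are in
`Pool.Agent.Work.MP_a21be6_nt.Defs`.
-/

namespace Pool.Agent.Results.MP_a21be6_nt.AlternationFromIrr

open Polynomial PrimeSum

/-- For every `n ≥ 1` the eigenvalues of `M n` can be enumerated with alternating signs (in the weak
sense) and non-increasing absolute values.  The spectrum is alternating (in the strict sense of the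
problem) if and only if `χ_n(x)` and `χ_n(-x)` are coprime, and it is alternating if `χ_n` is
irreducible over `ℚ`. -/
theorem result (n : ℕ) (hn : 0 < n) :
    (∃ l : Fin n → ℝ, IsSpectrum n l ∧
      (∀ i, 0 ≤ (-1) ^ i.val * l i) ∧ ∀ i j, i < j → |l j| ≤ |l i|) ∧
    (Alternating n ↔ IsCoprime (chi n) ((chi n).comp (-X))) ∧
    (Irreducible (chi n) → Alternating n) :=
  ⟨weak_alt hn, alt_iff hn, alt_of_irreducible hn⟩

end Pool.Agent.Results.MP_a21be6_nt.AlternationFromIrr
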